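import Pool.Agent.Helper95.KZ.Goals

/-!
# Project KZ, packet JMP: a line disjoint from its translate does not separate
-/

set_option autoImplicit false

namespace Pool.Agent.Helper64.KZ

open Pool.Agent.Helper52.Wq2 Pool.Agent.Helper61.NW Pool.Agent.Helper95.KZ

universe u

/-- finite connected subsets of connected sets -/
theorem fin_sub {V : Type u} {G : SimpleGraph V} {W : Set V} (hW : Conn G W) {u v : V}
    (hu : u ∈ W) (hv : v ∈ W) : ∃ F : Set V, F.Finite ∧ F ⊆ W ∧ Conn G F ∧ u ∈ F ∧ v ∈ F := by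
  have h1 := hW.2 {v | v ∈ W ∧ ∃ F : Set V, F.Finite ∧ F ⊆ W ∧ Conn G F ∧ u ∈ F ∧ v ∈ F}
    (fun v hv => hv.1)
    ⟨u, hu, {u}, Set.finite_singleton u, by rintro x rfl; exact hu, conn_singleton G u, rfl, rfl⟩
    (by
      rintro x ⟨hx, F, hF, hFW, hFc, huF, hxF⟩ y hy hxy
      refine ⟨hy, F ∪ {y}, hF.union (Set.finite_singleton y), ?_, ?_, Or.inl huF, Or.inr rfl⟩
      · rintro z (hz | rfl)
        · exact hFW hz
        · exact hy
      · exact Conn.union hFc (conn_singleton G y) hxF rfl hxy)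
  exact (h1 hv).2

/-- unions of connected sets with a common point -/
theorem conn_union {V : Type u} {G : SimpleGraph V} {s t : Set V} (hs : Conn G s) (ht : Conn G t)
    {x : V} (hxs : x ∈ s) (hxt : x ∈ t) : Conn G (s ∪ t) := by
  refine ⟨⟨x, Or.inl hxs⟩, ?_⟩
  intro A hA hne hcl
  have h1 : ∀ y ∈ A, y ∈ s → s ⊆ A := by
    intro y hy hys
    have := hs.2 (A ∩ s) (fun z hz => hz.2) ⟨y, hy, hys⟩ (by
      rintro a ⟨ha, has⟩ c hc hac
      exact ⟨hcl a ha c (Or.inl hc) hac, hc⟩)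
    exact fun z hz => (this hz).1
  have h2 : ∀ y ∈ A, y ∈ t → t ⊆ A := by
    intro y hy hyt
    have := ht.2 (A ∩ t) (fun z hz => hz.2) ⟨y, hy, hyt⟩ (by
      rintro a ⟨ha, has⟩ c hc hac
      exact ⟨hcl a ha c (Or.inr hc) hac, hc⟩)
    exact fun z hz => (this hz).1
  have h3 : x ∈ A := by
    obtain ⟨y, hy⟩ := hne
    rcases hA hy with h | h
    · exact h1 y hy h hxs
    · exact h2 y hy h hxt
  rintro z (hz | hz)
  · exact h1 x h3 hxs hz
  · exact h2 x h3 hxt hz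

section

variable {Γ : Type u} [Group Γ] {S : Set Γ}

theorem conn_left (hS : IsGen S) {W : Set Γ} (hW : Conn (cay S) W) (x : Γ) :
    Conn (cay S) ((fun g => x * g) '' W) := by
  refine Conn.image hW _ ?_
  intro a _ b _ hab
  right
  rw [cay_adj hS] at hab ⊢
  have h1 : (x * a)⁻¹ * (x * b) = a⁻¹ * b := by group
  rwa [h1]

theorem adj_left (hS : IsGen S) {a b : Γ} (h : (cay S).Adj a b) (x : Γ) :
    (cay S).Adj (x * a) (x * b) := by
  rw [cay_adj hS] at h ⊢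
  have h1 : (x * a)⁻¹ * (x * b) = a⁻¹ * b := by group
  rwa [h1]

theorem conn_cay (hS : IsGen S) : Conn (cay S) Set.univ := by
  refine ⟨⟨1, trivial⟩, ?_⟩
  intro A _ hne hcl g _
  obtain ⟨a, ha⟩ := hne
  have key : ∀ g ∈ Subgroup.closure S, ∀ x, x ∈ A ↔ x * g ∈ A := by
    intro g hg
    induction hg using Subgroup.closure_induction with
    | mem u hu =>
      intro x
      have h1 := cay_adj_mul hS x hu
      exact ⟨fun hx => hcl x hx _ trivial h1, fun hx => hcl _ hx x trivial h1.symm⟩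
    | one => intro x; rw [mul_one]
    | mul a b _ _ ha hb => intro x; rw [ha x, hb (x * a), mul_assoc]
    | inv a _ ha =>
      intro x
      have h1 := ha (x * a⁻¹)
      rw [inv_mul_cancel_right] at h1
      exact h1.symm
  have h1 := (key (a⁻¹ * g) (by rw [hS.1]; trivial) a).1 ha
  rwa [mul_inv_cancel_left] at h1

/-- the points joined to `R` outside of `l` -/
def Uo (S l R : Set Γ) : Set Γ :=
  {x | ∃ W, Conn (cay S) W ∧ Disjoint W l ∧ x ∈ W ∧ (W ∩ R).Nonempty}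

theorem uo_sub {l R W : Set Γ} (h1 : Conn (cay S) W) (h2 : Disjoint W l) {x : Γ} (hx : x ∈ W)
    (hxU : x ∈ Uo S l R) : W ⊆ Uo S l R := by
  obtain ⟨W', h3, h4, h5, h6⟩ := hxU
  intro y hy
  refine ⟨W ∪ W', conn_union h1 h3 hx h5, Set.disjoint_union_left.2 ⟨h2, h4⟩, Or.inl hy, ?_⟩
  obtain ⟨r, hr1, hr2⟩ := h6
  exact ⟨r, Or.inr hr1, hr2⟩

theorem uo_l {l R : Set Γ} {x : Γ} (hxU : x ∈ Uo S l R) : x ∉ l := by
  obtain ⟨W', h3, h4, h5, h6⟩ := hxU
  exact fun h => Set.disjoint_left.1 h4 h5 h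

theorem uo_adj {l R : Set Γ} {x y : Γ} (hxU : x ∈ Uo S l R) (hxy : (cay S).Adj x y)
    (hy : y ∉ l) : y ∈ Uo S l R := by
  obtain ⟨W, h3, h4, h5, h6⟩ := hxU
  refine ⟨W ∪ {y}, Conn.union h3 (conn_singleton _ y) h5 rfl hxy,
    Set.disjoint_union_left.2 ⟨h4, Set.disjoint_singleton_left.2 hy⟩, Or.inr rfl, ?_⟩
  obtain ⟨r, hr1, hr2⟩ := h6
  exact ⟨r, Or.inl hr1, hr2⟩

/-- the main argument -/
theorem main_arg (hS : IsGen S) (k : Γ) (o : ℕ) (ho : 0 < o) (hk : k ^ o = 1) (l R : Set Γ)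
    (hl : l.Nonempty) (hkl : ∀ x ∈ l, k * x ∉ l) (hR : R.Nonempty) (hRl : Disjoint R l)
    (hkR : ∀ x ∈ R, k⁻¹ * x ∈ R) (hU : ∀ x ∈ l, k * x ∉ Uo S l R) : False := by
  have hstep : ∀ x ∈ Uo S l R, k⁻¹ * x ∈ Uo S l R := by
    intro x hx
    obtain ⟨W, h1, h2, h3, h4⟩ := hx
    refine ⟨(fun g => k⁻¹ * g) '' W, conn_left hS h1 k⁻¹, ?_, ⟨x, h3, rfl⟩, ?_⟩
    · rw [Set.disjoint_left]
      rintro _ ⟨w, hw, rfl⟩ hwl
      have h5 : w ∈ Uo S l R := ⟨W, h1, h2, hw, h4⟩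
      have h6 := hU _ hwl
      have h7 : k * (k⁻¹ * w) = w := mul_inv_cancel_left k w
      have h8 : k * (k⁻¹ * w) ∉ Uo S l R := h6
      rw [h7] at h8
      exact h8 h5
    · obtain ⟨r, hr1, hr2⟩ := h4
      exact ⟨k⁻¹ * r, ⟨r, hr1, rfl⟩, hkR r hr2⟩
  have hiter : ∀ (j : ℕ) (x : Γ), x ∈ Uo S l R → (k⁻¹) ^ j * x ∈ Uo S l R := by
    intro j
    induction j with
    | zero => intro x hx; simpa using hx
    | succ j ih =>
      intro x hx
      rw [pow_succ, mul_assoc]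
      exact ih _ (hstep x hx)
  obtain ⟨r, hr⟩ := hR
  have hrU : r ∈ Uo S l R := by
    refine ⟨{r}, conn_singleton _ r, Set.disjoint_singleton_left.2 (Set.disjoint_left.1 hRl hr), rfl,
      r, rfl, hr⟩
  obtain ⟨y₀, hy₀⟩ := hl
  have hex : ∃ x ∈ Uo S l R, ∃ y, (cay S).Adj x y ∧ y ∉ Uo S l R := by
    by_contra hno
    push Not at hno
    have h1 := (conn_cay hS).2 (Uo S l R) (fun _ _ => trivial) ⟨r, hrU⟩
      (fun a ha c _ hac => hno a ha c hac)
    exact uo_l (h1 (Set.mem_univ y₀)) hy₀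
  obtain ⟨x, hx, y, hxy, hy⟩ := hex
  have hyl : y ∈ l := by
    by_contra hyl
    exact hy (uo_adj hx hxy hyl)
  have hky : k⁻¹ * y ∉ l := by
    intro h1
    have h2 := hkl _ h1
    rw [mul_inv_cancel_left] at h2
    exact h2 hyl
  have hkyU : k⁻¹ * y ∈ Uo S l R := uo_adj (hstep x hx) (adj_left hS hxy k⁻¹) hky
  obtain ⟨o', rfl⟩ : ∃ o', o = o' + 1 := ⟨o - 1, by omega⟩
  have h1 := hiter o' _ hkyU
  have h2 : (k⁻¹) ^ o' * (k⁻¹ * y) = y := by
    rw [← mul_assoc, ← pow_succ, inv_pow, hk, inv_one, one_mul]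
  rw [h2] at h1
  exact hy h1

end

theorem jmp (hslc : SlcStmt.{u}) : JmpStmt.{u} := by
  intro Γ _ S a b k B P o ho hk l hl hkl L hL hheight c
  set c' : ℤ := max c (L + 1) with hc'
  have hc1 : c ≤ c' := le_max_left _ _
  have hc2 : L + 1 ≤ c' := le_max_right _ _
  have hS := P.gen
  set R1 := Sl a b B (fun j => c' ≤ j) with hR1
  set R2 := Sl a b B (fun j => j ≤ -c') with hR2
  have hsub1 : R1 ⊆ Sl a b B (fun j => c ≤ j) := by
    rintro g ⟨i, j, hj, x, hx, rfl⟩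
    exact ⟨i, j, le_trans hc1 hj, x, hx, rfl⟩
  have hsub2 : R2 ⊆ Sl a b B (fun j => j ≤ -c) := by
    rintro g ⟨i, j, hj, x, hx, rfl⟩
    refine ⟨i, j, ?_, x, hx, rfl⟩
    change j ≤ -c
    have h1 : j ≤ -c' := hj
    omega
  have hconn1 : Conn (cay S) R1 := hslc Γ S a b k B P (fun j => c' ≤ j) ⟨c', le_refl _⟩
    (fun i j l h1 _ h3 _ => le_trans h1 h3)
  have hconn2 : Conn (cay S) R2 := hslc Γ S a b k B P (fun j => j ≤ -c') ⟨-c', le_refl _⟩
    (fun i j l _ h2 _ h4 => le_trans h4 h2)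
  have hd1 : Disjoint R1 l := by
    rw [Set.disjoint_left]
    rintro g ⟨i, j, hj, x, hx, rfl⟩ hg
    have h1 := hheight i j x hx hg
    have h2 : c' ≤ j := hj
    rw [abs_le] at h1
    omega
  have hd2 : Disjoint R2 l := by
    rw [Set.disjoint_left]
    rintro g ⟨i, j, hj, x, hx, rfl⟩ hg
    have h1 := hheight i j x hx hg
    have h2 : j ≤ -c' := hj
    rw [abs_le] at h1
    omega
  -- `k` preserves the slabs
  have hkpow : ∀ (Q : ℤ → Prop) (g : Γ), g ∈ Sl a b B Q → k * g ∈ Sl a b B Q := by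
    rintro Q g ⟨i, j, hj, x, hx, rfl⟩
    refine ⟨i, j, hj, k * x, P.kB x hx, ?_⟩
    have h1 : Commute (a ^ i) k := (show Commute a k from P.ak).zpow_left i
    have h2 : Commute (b ^ j) k := (show Commute b k from P.bk).zpow_left j
    rw [← mul_assoc, ← mul_assoc, ← mul_assoc]
    congr 1
    rw [mul_assoc (a ^ i), h2.eq, ← mul_assoc, h1.eq]
  have hkinv : ∀ (Q : ℤ → Prop) (g : Γ), g ∈ Sl a b B Q → k⁻¹ * g ∈ Sl a b B Q := by
    intro Q g hg
    have h1 : ∀ (j : ℕ) (g : Γ), g ∈ Sl a b B Q → k ^ j * g ∈ Sl a b B Q := by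
      intro j
      induction j with
      | zero => intro g hg; simpa using hg
      | succ j ih =>
        intro g hg
        rw [pow_succ, mul_assoc]
        exact ih _ (hkpow Q g hg)
    obtain ⟨o', rfl⟩ : ∃ o', o = o' + 1 := ⟨o - 1, by omega⟩
    have h2 : k⁻¹ = k ^ o' := by
      rw [inv_eq_iff_mul_eq_one, ← pow_succ']
      exact hk
    rw [h2]
    exact h1 o' g hg
  by_cases hmeet : ∃ x, x ∈ Uo S l R1 ∧ x ∈ Uo S l R2
  · obtain ⟨x, ⟨W1, h1, h2, h3, r1, h4, h4'⟩, ⟨W2, h5, h6, h7, r2, h8, h8'⟩⟩ := hmeet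
    have h9 : Conn (cay S) (W1 ∪ W2) := conn_union h1 h5 h3 h7
    obtain ⟨F, f1, f2, f3, f4, f5⟩ := fin_sub h9 (Or.inl h4 : r1 ∈ W1 ∪ W2)
      (Or.inr h8 : r2 ∈ W1 ∪ W2)
    refine ⟨F, f1, f3, ?_, ⟨r1, f4, hsub1 h4'⟩, ⟨r2, f5, hsub2 h8'⟩⟩
    exact (Set.disjoint_union_left.2 ⟨h2, h6⟩).mono_left f2
  · exfalso
    push Not at hmeet
    have hklc : Conn (cay S) ((fun g => k * g) '' l) := conn_left hS hl k
    have hkld : Disjoint ((fun g => k * g) '' l) l := by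
      rw [Set.disjoint_left]
      rintro _ ⟨x, hx, rfl⟩ h1
      exact hkl x hx h1
    by_cases hU : ∀ x ∈ l, k * x ∉ Uo S l R1
    · exact main_arg hS k o ho hk l R1 hl.1 hkl hconn1.1 hd1 (fun x hx => hkinv _ x hx) hU
    · push Not at hU
      obtain ⟨x, hx, hxU⟩ := hU
      have h1 := uo_sub hklc hkld ⟨x, hx, rfl⟩ hxU
      refine main_arg hS k o ho hk l R2 hl.1 hkl hconn2.1 hd2 (fun x hx => hkinv _ x hx) ?_
      intro y hy hyU
      exact hmeet _ (h1 ⟨y, hy, rfl⟩) hyU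

end Pool.Agent.Helper64.KZ
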